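import Pool.Agent.H265Z.Gon.Main

namespace Pool.Agent.H265Z.Gon

open MvPolynomial

variable {k : Type} [Field k]

lemma finite_S : {x : Fin 3 → k | x ≠ 0 ∧ ∀ i, x i ^ 4 = x i}.Finite := by
  classical
  refine (Set.Finite.pi' (fun _ : Fin 3 => (Polynomial.X ^ 4 - Polynomial.X :
    Polynomial k).roots.toFinset.finite_toSet)).subset ?_
  rintro x ⟨-, hx⟩ i
  rw [Finset.mem_coe, Multiset.mem_toFinset, Polynomial.mem_roots]
  · simp [hx]
  · exact FiniteField.X_pow_card_sub_X_ne_zero k (by norm_num)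

/-- the product of the incidence conditions with the points over the field of four elements -/
noncomputable def Q (k : Type) [Field k] : MvPolynomial (Fin 3) k :=
  ∏ x ∈ (finite_S (k := k)).toFinset, ∑ i : Fin 3, C (x i) * X i

lemma Q_hom : ∃ m, (Q k).IsHomogeneous m :=
  ⟨_, IsHomogeneous.prod _ _ (fun _ => 1) fun x _ =>
    IsHomogeneous.sum _ _ _ fun i _ => isHomogeneous_C_mul_X (x i) i⟩

lemma Q_ne : Q k ≠ 0 := by
  refine Finset.prod_ne_zero_iff.mpr fun x hx h => ?_
  rw [Set.Finite.mem_toFinset] at hx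
  apply hx.1
  funext j
  have := congrArg (eval (Pi.single j (1 : k))) h
  fin_cases j <;> simpa [Fin.sum_univ_three] using this

lemma Q_spec {c : Fin 3 → k} (hc : eval c (Q k) ≠ 0) {x : Fin 3 → k} (hx : x ≠ 0)
    (h : ∀ i, x i ^ 4 = x i) : c 0 * x 0 + c 1 * x 1 + c 2 * x 2 ≠ 0 := by
  rw [Q, map_prod] at hc
  have := Finset.prod_ne_zero_iff.mp hc x ((Set.Finite.mem_toFinset _).mpr ⟨hx, h⟩)
  simpa [Fin.sum_univ_three, mul_comm] using this

variable [CharP k 2] [IsAlgClosed k]

lemma w_ne {c : Fin 3 → k} (hc : eval c (Q k) ≠ 0) {a : Fin 3 → k} (ha : a ≠ 0)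
    (h : c 0 * a 0 ^ 2 + c 1 * a 1 ^ 2 + c 2 * a 2 ^ 2 = 0) : w a ≠ 0 := by
  intro hw
  obtain ⟨μ, hμ0, hμ⟩ := w_zero ha hw
  obtain ⟨ν, hν⟩ := IsAlgClosed.exists_pow_nat_eq μ⁻¹ (n := 3) (by norm_num)
  have hν1 : ν ^ 3 * μ = 1 := by rw [hν, inv_mul_cancel₀ hμ0]
  have hν0 : ν ≠ 0 := by
    rintro rfl
    simp at hν1
  refine Q_spec hc (x := fun i => (ν * a i) ^ 2) (fun h0 => ha (funext fun i => ?_)) (fun i => ?_) ?_
  · have := congrFun h0 i
    simpa [hν0] using this
  · have : (ν * a i) ^ 4 = ν * a i := by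
      rw [mul_pow, hμ i]
      linear_combination ν * a i * hν1
    rw [← pow_mul, mul_comm 2 4, pow_mul, this]
  · linear_combination ν ^ 2 * h

/-- generic point of the curve -/
noncomputable def gC (e1 e2 : k) : V → MvPolynomial (Fin 3) k :=
  P3 ![C e1 + C e2 * X 0, 1, X 0] (X 1) (X 2)

lemma eval_gC (e1 e2 : k) (b : Fin 3 → k) :
    (fun v => eval b (gC e1 e2 v)) = P3 ![e1 + e2 * b 0, 1, b 0] (b 1) (b 2) := by
  funext v
  rw [gC, map_P3, eval_X, eval_X]
  congr 1
  funext j
  fin_cases j <;> simp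

lemma curve_iff {c : Fin 3 → k} (hc : eval c (Q k) ≠ 0) {e1 e2 : k} (h1 : c 0 * e1 ^ 2 = c 1)
    (h2 : c 0 * e2 ^ 2 = c 2) (F : MvPolynomial V k) :
    F ∈ vanishingIdeal k (cone (insert (lin c) {F1, F2})) ↔ aeval (gC e1 e2) F = 0 := by
  have c0 : c 0 ≠ 0 := by
    have := Q_spec hc (x := ![1, 0, 0]) (by simp) (fun i => by fin_cases i <;> simp)
    simpa using this
  have hl : ∀ u t : k, c 0 * (e1 * u + e2 * t) ^ 2 + c 1 * u ^ 2 + c 2 * t ^ 2 = 0 := by
    intro u t
    rw [← h1, ← h2]
    linear_combination c 0 * (e1 ^ 2 * u ^ 2 + e2 ^ 2 * t ^ 2 + e1 * u * e2 * t) * two_eq (k := k)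
  refine ideal_iff (gC e1 e2) _ (X 1 * X 2) (mul_ne_zero (X_ne_zero _) (X_ne_zero _))
    (fun b hb => ?_) (fun F hF p hp => ?_) F
  · rw [eval_gC]
    rw [map_mul, eval_X, eval_X] at hb
    have hw : w ![e1 + e2 * b 0, 1, b 0] ≠ 0 :=
      w_ne hc (fun h => by simpa using congrFun h 1) (by simpa using hl 1 (b 0))
    refine ⟨fun h => ?_, fun h => hw (funext fun i => ?_), ?_⟩
    · have := congrFun h 1
      simp [P3] at this
      simp [this] at hb
    · have := congrFun h i
      simp only [P3, Function.comp_apply, Sum.elim_inr, Pi.zero_apply] at this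
      exact (mul_eq_zero.mp this).resolve_left (right_ne_zero_of_mul hb)
    · rintro G (rfl | rfl | rfl)
      · rw [eval_lin]
        have := hl 1 (b 0)
        simp only [P3, Sum.elim_inl, Matrix.cons_val_zero, Matrix.cons_val_one, Matrix.cons_val]
        linear_combination b 1 * this
      · exact P3_F1 _ _ _
      · exact P3_F2 _ _ _
  · have hA : ∀ u t m l : k, u ≠ 0 → eval (P3 ![e1 * u + e2 * t, u, t] m l) F = 0 := by
      intro u t m l hu
      have : (![e1 * u + e2 * t, u, t] : Fin 3 → k) =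
          fun j => u * (![e1 + e2 * (t / u), 1, t / u] : Fin 3 → k) j := by
        funext j
        fin_cases j <;> simp <;> field_simp
      rw [this, P3_smul]
      have := hF ![t / u, m * u ^ 2, l * u ^ 5]
      rwa [eval_gC] at this
    have hB : ∀ u t m l : k, eval (P3 ![e1 * u + e2 * t, u, t] m l) F = 0 := by
      intro u t m l
      by_cases hu : u = 0
      swap
      · exact hA u t m l hu
      have hγ : ∀ e : k, (fun v => (P3 ![Polynomial.C e1 * Polynomial.X + Polynomial.C (e2 * t),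
          Polynomial.X, Polynomial.C t] (Polynomial.C m) (Polynomial.C l) v).eval e) =
          P3 ![e1 * e + e2 * t, e, t] m l := by
        intro e
        funext v
        have := map_P3 (Polynomial.evalRingHom e) ![Polynomial.C e1 * Polynomial.X +
          Polynomial.C (e2 * t), Polynomial.X, Polynomial.C t] (Polynomial.C m) (Polynomial.C l) v
        rw [Polynomial.coe_evalRingHom] at this
        rw [this, Polynomial.eval_C, Polynomial.eval_C]
        congr 1
        funext j
        fin_cases j <;> simp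
      have := lim F _ (fun e he => by rw [hγ e]; exact hA _ _ _ _ he)
      rw [hγ 0] at this
      rw [hu]
      exact this
    obtain ⟨a, ha, hxa, -, hw⟩ := point_sqrt hp.1 (hp.2.2 F1 (by simp)) (hp.2.2 F2 (by simp))
    have hlin := hp.2.2 (lin c) (by simp)
    rw [eval_lin, hxa, hxa, hxa] at hlin
    obtain ⟨l, rfl⟩ := hw (w_ne hc ha hlin)
    have e0 : a 0 = e1 * a 1 + e2 * a 2 := by
      have : c 0 * (a 0 - (e1 * a 1 + e2 * a 2)) ^ 2 = 0 := by
        linear_combination hlin + hl (a 1) (a 2) -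
          (c 1 * a 1 ^ 2 + c 2 * a 2 ^ 2 + c 0 * a 0 * (e1 * a 1 + e2 * a 2)) * two_eq (k := k)
      exact sub_eq_zero.mp
        (pow_eq_zero_iff two_ne_zero |>.mp ((mul_eq_zero.mp this).resolve_left c0))
    have e : a = ![e1 * a 1 + e2 * a 2, a 1, a 2] := by
      funext j
      fin_cases j <;> simp [← e0]
    rw [e]
    exact hB _ _ _ _

theorem curve_main {c : Fin 3 → k} (hc : eval c (Q k) ≠ 0) :
    ∃ _ : (vanishingIdeal k (cone (insert (lin c) {F1, F2}))).IsPrime,
      Algebra.trdeg k (funField (cone (insert (lin c) {F1, F2}))) = 1 ∧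
      minDegree k 1 (funField (cone (insert (lin c) {F1, F2}))) = 1 := by
  have c0 : c 0 ≠ 0 := by
    have := Q_spec hc (x := ![1, 0, 0]) (by simp) (fun i => by fin_cases i <;> simp)
    simpa using this
  obtain ⟨e1, he1⟩ := IsAlgClosed.exists_pow_nat_eq (c 1 / c 0) (n := 2) two_pos
  obtain ⟨e2, he2⟩ := IsAlgClosed.exists_pow_nat_eq (c 2 / c 0) (n := 2) two_pos
  have H := curve_iff hc (e1 := e1) (e2 := e2) (by rw [he1]; field_simp) (by rw [he2]; field_simp)
  have hp := prime_of_iff H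
  refine ⟨hp, ?_⟩
  set Z := cone (insert (lin c) {F1, F2}) with hZ
  obtain ⟨ι, hι⟩ := exists_iota H
  let f : Polynomial k →ₐ[k] FractionRing (MvPolynomial (Fin 3) k) :=
    (IsScalarTower.toAlgHom k (MvPolynomial (Fin 3) k) _).comp (Polynomial.aeval (X 0))
  have hf : Function.Injective f := by
    refine (IsFractionRing.injective (MvPolynomial (Fin 3) k) _).comp ?_
    exact transcendental_iff_injective.mp (MvPolynomial.transcendental_X k 0)
  let j : RatFunc k →ₐ[k] FractionRing (MvPolynomial (Fin 3) k) := IsFractionRing.liftAlgHom hf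
  have hjX : j RatFunc.X = algebraMap (MvPolynomial (Fin 3) k) _ (X 0) := by
    rw [← RatFunc.algebraMap_X, IsFractionRing.liftAlgHom_apply, IsFractionRing.lift_algebraMap]
    simp [f]
  let g' : V → RatFunc k :=
    P3 ![algebraMap k _ e1 + algebraMap k _ e2 * RatFunc.X, 1, RatFunc.X] 1 1
  let s : V → FractionRing (MvPolynomial (Fin 3) k) :=
    Sum.elim (fun _ => algebraMap (MvPolynomial (Fin 3) k) _ (X 1))
      (fun _ => algebraMap (MvPolynomial (Fin 3) k) _ (X 2))
  have hs : ∀ v, s v ≠ 0 := by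
    rintro (i | i) <;> simp [s]
  have hg : ∀ v, algebraMap (MvPolynomial (Fin 3) k) _ (gC e1 e2 v) = s v * j (g' v) := by
    intro v
    have e : (fun i => algebraMap (MvPolynomial (Fin 3) k) (FractionRing (MvPolynomial (Fin 3) k))
        ((![C e1 + C e2 * X 0, 1, X 0] : Fin 3 → MvPolynomial (Fin 3) k) i)) = fun i =>
        (j : RatFunc k →+* _) ((![algebraMap k _ e1 + algebraMap k _ e2 * RatFunc.X, 1, RatFunc.X] :
          Fin 3 → RatFunc k) i) := by
      funext i
      fin_cases i
      · simp only [Fin.zero_eta, Matrix.cons_val_zero, map_add, map_mul, RingHom.coe_coe,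
          AlgHom.commutes, hjX]
        rfl
      · simp
      · simp [hjX]
    have e' := map_P3 (j : RatFunc k →+* FractionRing (MvPolynomial (Fin 3) k))
      ![algebraMap k _ e1 + algebraMap k _ e2 * RatFunc.X, 1, RatFunc.X] 1 1 v
    rw [gC, map_P3, e]
    change _ = s v * (j : RatFunc k →+* FractionRing (MvPolynomial (Fin 3) k)) (g' v)
    rw [e']
    rcases v with i | i <;> simp [P3, s]
  let E0 : IntermediateField k (RatFunc k) :=
    IntermediateField.adjoin k {z | ∃ a b : V, a.isLeft = b.isLeft ∧ z = g' a / g' b}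
  have hr : ∀ a b : V, a.isLeft = b.isLeft →
      ι (algebraMap (MvPolynomial V k) _ (X a) / algebraMap (MvPolynomial V k) _ (X b)) =
        j (g' a / g' b) := by
    intro a b hab
    have : s a = s b := by
      rcases a with i | i <;> rcases b with i' | i' <;> simp_all [s]
    rw [map_div₀, map_div₀, hι, hι, hg, hg, this, mul_div_mul_left _ _ (hs b)]
  have hmap : (funField Z).map ι = E0.map j := by
    rw [funField, IntermediateField.adjoin_map, IntermediateField.adjoin_map]
    congr 1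
    ext z
    constructor
    · rintro ⟨_, ⟨a, b, hab, rfl⟩, rfl⟩
      exact ⟨_, ⟨a, b, hab, rfl⟩, (hr a b hab).symm⟩
    · rintro ⟨_, ⟨a, b, hab, rfl⟩, rfl⟩
      exact ⟨_, ⟨a, b, hab, rfl⟩, hr a b hab⟩
  have hE0 : E0 ≠ ⊥ := by
    intro h
    have hm : g' (.inl 2) / g' (.inl 1) ∈ E0 :=
      IntermediateField.subset_adjoin _ _ ⟨.inl 2, .inl 1, rfl, rfl⟩
    have e : g' (.inl 2) / g' (.inl 1) = RatFunc.X ^ 2 := by simp [g', P3]
    rw [h, e, IntermediateField.mem_bot] at hm
    obtain ⟨r, hr⟩ := hm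
    exact (RatFunc.transcendental_X (K := k)).pow two_pos (hr ▸ isAlgebraic_algebraMap r)
  exact curve_field ((RatFunc.Luroth.algEquiv hE0).trans ((E0.equivMap j).trans
    ((IntermediateField.equivOfEq hmap.symm).trans ((funField Z).equivMap ι).symm)))

end Pool.Agent.H265Z.Gon
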