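import Mathlib

/-!
Classical projective geometry in `P^2 x P^2` over a field `k`, through affine cones and generic
points.
-/

namespace Pool.Agent.H265Z.Gon

open MvPolynomial

/-- Coordinates `x_0, x_1, x_2` (`inl`) and `y_0, y_1, y_2` (`inr`) of `P^2 x P^2`. -/
abbrev V : Type := Fin 3 ⊕ Fin 3

variable {k : Type} [Field k]

/-- `F` is homogeneous in the `x_i` and homogeneous in the `y_i`. -/
def IsBihom (F : MvPolynomial V k) : Prop :=
  ∃ d : ℕ × ℕ,
    F.IsWeightedHomogeneous (Sum.elim (fun _ => (1, 0)) (fun _ => (0, 1)) : V → ℕ × ℕ) d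

/-- The closed subset of `P^2 x P^2` cut out by `S`, as the set of all coordinate vectors
`(x, y)`, `x ≠ 0`, `y ≠ 0`, of its points. -/
def cone (S : Set (MvPolynomial V k)) : Set (V → k) :=
  {p | p ∘ Sum.inl ≠ 0 ∧ p ∘ Sum.inr ≠ 0 ∧ ∀ F ∈ S, eval p F = 0}

/-- The gradients at `p` of the polynomials vanishing on `Z`. -/
def gradients (Z : Set (V → k)) (p : V → k) : Set (V → k) :=
  {g | ∃ F : MvPolynomial V k, (∀ q ∈ Z, eval q F = 0) ∧ g = fun a => eval p (pderiv a F)}

/-- Jacobian criterion for `Z` of dimension `n`: at every point the gradients of the members of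
`I(Z)` span a space of dimension at least the codimension `4 - n`. -/
def JacobianSmooth (n : ℕ) (Z : Set (V → k)) : Prop :=
  ∀ p ∈ Z, 4 ≤ n + Set.finrank k (gradients Z p)

/-- `z`, with coordinates in an extension field `L`, is a generic point of `Z`: it satisfies
exactly the polynomial equations that hold on `Z`.  One exists iff `I(Z)` is prime. -/
def IsGeneric (Z : Set (V → k)) {L : Type} [Field L] [Algebra k L] (z : V → L) : Prop :=
  ∀ F : MvPolynomial V k, aeval z F = 0 ↔ ∀ p ∈ Z, eval p F = 0

/-- The field generated by the ratios `x_i / x_j` and `y_i / y_j` of the coordinates of `z`; for a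
generic point of `Z` this is the function field of `Z`. -/
noncomputable def ratios (k : Type) [Field k] {L : Type} [Field L] [Algebra k L] (z : V → L) :
    IntermediateField k L :=
  IntermediateField.adjoin k {u | ∃ a b : V, a.isLeft = b.isLeft ∧ u = z a / z b}

/-- The function field `k(t_1, ..., t_n)` of `P^n`. -/
abbrev RatField (k : Type) [Field k] (n : ℕ) : Type := FractionRing (MvPolynomial (Fin n) k)

/-- The degree `[K : φ(k(t_1, ..., t_n))]` of the dominant rational map to `P^n` given by `φ`. -/
noncomputable def degree {n : ℕ} {K : Type} [Field K] [Algebra k K]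
    (φ : RatField k n →ₐ[k] K) : Cardinal :=
  Module.rank φ.fieldRange K

/-- The least degree of a dominant rational map to `P^n` from the variety with function field `K`;
for `n = 1` this is the gonality. -/
noncomputable def minDegree (k : Type) [Field k] (n : ℕ) (K : Type) [Field K] [Algebra k K] :
    Cardinal :=
  ⨅ φ : RatField k n →ₐ[k] K, degree φ

/-- The dominant rational map to `P^n` with `t_i ↦ u_i` exists and has degree `d`. -/
def HasDegree (k : Type) [Field k] {n : ℕ} {K : Type} [Field K] [Algebra k K] (u : Fin n → K)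
    (d : Cardinal) : Prop :=
  ∃ φ : RatField k n →ₐ[k] K,
    (∀ i, φ (algebraMap (MvPolynomial (Fin n) k) _ (X i)) = u i) ∧ degree φ = d

/-- `Z` is integral of dimension `n`, and `d` is the least degree of a dominant rational map from
`Z` to `P^n`. -/
def IntegralDimMinDegree (Z : Set (V → k)) (n : ℕ) (d : Cardinal) : Prop :=
  ∃ (L : Type) (_ : Field L) (_ : Algebra k L) (z : V → L), IsGeneric Z z ∧
    Algebra.trdeg k (ratios k z) = n ∧ minDegree k n (ratios k z) = d

/-- `Z` is integral and the projection `(x_0 : x_1 : x_2)` from `Z` to `P^2` is dominant of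
degree `d`. -/
def ProjDegree (Z : Set (V → k)) (d : Cardinal) : Prop :=
  ∃ (L : Type) (_ : Field L) (_ : Algebra k L) (z : V → L), IsGeneric Z z ∧
    ∃ u : Fin 2 → ratios k z, (∀ i, (u i).1 = z (Sum.inl i.succ) / z (Sum.inl 0)) ∧
      HasDegree k u d

/-- The two equations `∑ x_i y_i ^ 2` and `∑ x_i ^ 2 y_i`. -/
def eqns (k : Type) [Field k] : Set (MvPolynomial V k) :=
  {∑ i : Fin 3, X (Sum.inl i) * X (Sum.inr i) ^ 2, ∑ i : Fin 3, X (Sum.inl i) ^ 2 * X (Sum.inr i)}

/-- The linear form `∑ c_i x_i`. -/
noncomputable def lineForm (c : Fin 3 → k) : MvPolynomial V k :=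
  ∑ i : Fin 3, C (c i) * X (Sum.inl i)

end Pool.Agent.H265Z.Gon
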