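import Pool.Agent.H265Z.Gon.Nonrat

namespace Pool.Agent.H265Z.Gon

open MvPolynomial

variable {k : Type} [Field k]

lemma trdeg_ratField (n : ℕ) : Algebra.trdeg k (RatField k n) = n := by
  rw [← trdeg_add_eq k (MvPolynomial (Fin n) k) (A := RatField k n), MvPolynomial.trdeg_of_isDomain]
  have : Algebra.IsAlgebraic (MvPolynomial (Fin n) k) (RatField k n) :=
    IsLocalization.isAlgebraic _ (nonZeroDivisors (MvPolynomial (Fin n) k))
  rw [trdeg_eq_zero]
  simp

lemma trdeg_of_finite {n : ℕ} {K : Type} [Field K] [Algebra k K] (φ : RatField k n →ₐ[k] K)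
    [FiniteDimensional φ.fieldRange K] : Algebra.trdeg k K = n := by
  rw [← trdeg_add_eq k φ.fieldRange (A := K), trdeg_eq_zero (R := φ.fieldRange), add_zero,
    ← trdeg_ratField (k := k) n]
  exact (AlgEquiv.ofInjectiveField φ).trdeg_eq.symm

lemma one_le_degree {n : ℕ} {K : Type} [Field K] [Algebra k K] (φ : RatField k n →ₐ[k] K) :
    1 ≤ degree φ := Cardinal.one_le_iff_pos.mpr rank_pos

lemma two_le_degree {n : ℕ} {K : Type} [Field K] [Algebra k K] (φ : RatField k n →ₐ[k] K)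
    (h : φ.fieldRange ≠ ⊤) : 2 ≤ degree φ := by
  have h1 := one_le_degree φ
  have h2 : degree φ ≠ 1 := fun e => h <| IntermediateField.finrank_eq_one_iff_eq_top.mp
    (Module.rank_eq_one_iff_finrank_eq_one.mp e)
  exact Cardinal.two_le_iff_one_lt.mpr (lt_of_le_of_ne h1 h2.symm)

lemma minDegree_eq {n : ℕ} {K : Type} [Field K] [Algebra k K] (φ : RatField k n →ₐ[k] K)
    (h : ∀ ψ : RatField k n →ₐ[k] K, degree φ ≤ degree ψ) : minDegree k n K = degree φ := by
  have : Nonempty (RatField k n →ₐ[k] K) := ⟨φ⟩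
  exact le_antisymm (ciInf_le' _ φ) (le_ciInf h)

/-- a rational function field in one variable has dimension one and gonality one -/
lemma curve_field {K : Type} [Field K] [Algebra k K] (e : RatFunc k ≃ₐ[k] K) :
    Algebra.trdeg k K = 1 ∧ minDegree k 1 K = 1 := by
  let e0 : RatField k 1 ≃ₐ[k] RatFunc k :=
    IsFractionRing.algEquivOfAlgEquiv (MvPolynomial.uniqueAlgEquiv k (Fin 1))
  let φ : RatField k 1 →ₐ[k] K := (e0.trans e : RatField k 1 ≃ₐ[k] K)
  have hφ : φ.fieldRange = ⊤ := AlgHom.fieldRange_eq_top.mpr (e0.trans e).surjective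
  have hd : degree φ = 1 := Module.rank_eq_one_iff_finrank_eq_one.mpr
    (IntermediateField.finrank_eq_one_iff_eq_top.mpr hφ)
  refine ⟨?_, ?_⟩
  · rw [← (e0.trans e).trdeg_eq, trdeg_ratField, Nat.cast_one]
  · rw [minDegree_eq φ (fun ψ => hd ▸ one_le_degree ψ), hd]

variable [CharP k 2]

theorem surf_field {K : Type} [Field K] [Algebra k K] {ξ η : Fin 3 → K}
    (h0 : ξ 0 = 1) (h0' : η 0 = 1)
    (h1 : ξ 0 * η 0 ^ 2 + ξ 1 * η 1 ^ 2 + ξ 2 * η 2 ^ 2 = 0)
    (h2 : η 0 * ξ 0 ^ 2 + η 1 * ξ 1 ^ 2 + η 2 * ξ 2 ^ 2 = 0)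
    (gen : IntermediateField.adjoin k (Set.range ξ ∪ Set.range η) = ⊤)
    (ind : ∀ P : MvPolynomial (Fin 2) k, aeval (fun i : Fin 2 => ξ i.succ) P = 0 → P = 0) :
    Algebra.trdeg k K = 2 ∧ ∃ φ : RatField k 2 →ₐ[k] K,
      (∀ i, φ (algebraMap (MvPolynomial (Fin 2) k) _ (X i)) = ξ i.succ) ∧ degree φ = 2 ∧
        minDegree k 2 K = 2 := by
  have inj : Function.Injective (aeval (fun i : Fin 2 => ξ i.succ) : A2 k →ₐ[k] K) :=
    (injective_iff_map_eq_zero _).mpr ind
  let φ : RatField k 2 →ₐ[k] K := IsFractionRing.liftAlgHom inj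
  have hφ : ∀ P : A2 k, φ (algebraMap _ _ P) = aeval (fun i : Fin 2 => ξ i.succ) P := by
    intro P
    simp [φ]
  have hX : ∀ i, φ (algebraMap (MvPolynomial (Fin 2) k) _ (X i)) = ξ i.succ := by
    intro i
    rw [hφ, aeval_X]
  have two : (2 : K) = 0 := by
    have : CharP K 2 := charP_of_injective_algebraMap (algebraMap k K).injective 2
    have := CharP.cast_eq_zero K 2
    exact_mod_cast this
  have m1 : ξ 1 ∈ φ.fieldRange := ⟨_, hX 0⟩
  have m2 : ξ 2 ∈ φ.fieldRange := ⟨_, hX 1⟩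
  have n2 : ξ 2 ≠ 0 := by
    intro h
    refine X_ne_zero (R := k) (1 : Fin 2) (ind _ ?_)
    rw [aeval_X]
    exact h
  have n3 : ξ 1 ^ 4 + ξ 1 * ξ 2 ^ 3 ≠ 0 := by
    intro h
    have := ind (X 0 ^ 4 + X 0 * X 1 ^ 3) (by simpa using h)
    have := congrArg (eval ![(1 : k), 0]) this
    simp at this
  rw [h0, h0'] at h1 h2
  have e1 : η 1 ^ 2 = (1 + ξ 2 ^ 3) / (ξ 1 ^ 4 + ξ 1 * ξ 2 ^ 3) := by
    rw [eq_div_iff n3]
    linear_combination ξ 2 ^ 3 * h1 + (1 + η 1 * ξ 1 ^ 2 + η 2 * ξ 2 ^ 2) * h2 -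
      (1 + ξ 2 ^ 3 + ξ 2 ^ 4 * η 2 ^ 2 + η 1 * ξ 1 ^ 2 + η 2 * ξ 2 ^ 2 +
        η 1 * ξ 1 ^ 2 * η 2 * ξ 2 ^ 2) * two
  have e2 : η 2 = (1 + η 1 * ξ 1 ^ 2) / ξ 2 ^ 2 := by
    rw [eq_div_iff (pow_ne_zero 2 n2)]
    linear_combination h2 - (1 + η 1 * ξ 1 ^ 2) * two
  let c : φ.fieldRange := ⟨η 1 ^ 2, by
    rw [e1]
    exact div_mem (add_mem (one_mem _) (pow_mem m2 3))
      (add_mem (pow_mem m1 4) (mul_mem m1 (pow_mem m2 3)))⟩
  have hmon : (Polynomial.X ^ 2 - Polynomial.C c).Monic := Polynomial.monic_X_pow_sub_C c two_ne_zero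
  have hroot : Polynomial.aeval (η 1) (Polynomial.X ^ 2 - Polynomial.C c) = 0 := by
    simp [c]
  have hint : IsIntegral φ.fieldRange (η 1) := ⟨_, hmon, hroot⟩
  have htop : IntermediateField.adjoin φ.fieldRange {η 1} = ⊤ := by
    apply IntermediateField.restrictScalars_injective k
    rw [IntermediateField.restrictScalars_top, ← top_le_iff, ← gen, IntermediateField.adjoin_le_iff]
    have a1 : ξ 1 ∈ IntermediateField.adjoin φ.fieldRange {η 1} :=
      IntermediateField.algebraMap_mem _ (⟨ξ 1, m1⟩ : φ.fieldRange)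
    have a2 : ξ 2 ∈ IntermediateField.adjoin φ.fieldRange {η 1} :=
      IntermediateField.algebraMap_mem _ (⟨ξ 2, m2⟩ : φ.fieldRange)
    have a3 : η 1 ∈ IntermediateField.adjoin φ.fieldRange {η 1} :=
      IntermediateField.mem_adjoin_simple_self _ _
    rintro _ (⟨i, rfl⟩ | ⟨i, rfl⟩)
    · change ξ i ∈ IntermediateField.adjoin φ.fieldRange {η 1}
      fin_cases i
      · simp only [Fin.zero_eta, h0]
        exact one_mem _
      · exact a1
      · exact a2
    · change η i ∈ IntermediateField.adjoin φ.fieldRange {η 1}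
      fin_cases i
      · simp only [Fin.zero_eta, h0']
        exact one_mem _
      · exact a3
      · simp only [Fin.reduceFinMk]
        rw [e2]
        exact div_mem (add_mem (one_mem _) (mul_mem a3 (pow_mem a1 2))) (pow_mem a2 2)
  have fd : FiniteDimensional φ.fieldRange K := by
    have := IntermediateField.adjoin.finiteDimensional hint
    rw [htop] at this
    exact IntermediateField.topEquiv.toLinearEquiv.finiteDimensional
  have hle : Module.finrank φ.fieldRange K ≤ 2 := by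
    rw [← IntermediateField.finrank_top', ← htop, IntermediateField.adjoin.finrank hint]
    refine (Polynomial.natDegree_le_natDegree (minpoly.min _ _ hmon hroot)).trans ?_
    rw [Polynomial.natDegree_X_pow_sub_C]
  have all : ∀ ψ : RatField k 2 →ₐ[k] K, 2 ≤ degree ψ := fun ψ =>
    two_le_degree ψ (nonrat h0 h0' (by rw [h0, h0']; exact h1) (by rw [h0, h0']; exact h2) gen ψ)
  have hd : degree φ = 2 := by
    refine le_antisymm ?_ (all φ)
    rw [degree, ← Module.finrank_eq_rank]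
    exact_mod_cast hle
  refine ⟨by exact_mod_cast trdeg_of_finite φ, φ, hX, hd, ?_⟩
  rw [minDegree_eq φ (fun ψ => hd ▸ all ψ), hd]

end Pool.Agent.H265Z.Gon
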