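import Pool.Agent.H265Z.Gon.Points

namespace Pool.Agent.H265Z.Gon

open MvPolynomial

variable {k : Type} [Field k]

noncomputable def funField (Z : Set (V → k)) [(vanishingIdeal k Z).IsPrime] :
    IntermediateField k (vanishingIdeal k Z).ResidueField :=
  IntermediateField.adjoin k
    {z | ∃ a b : V, a.isLeft = b.isLeft ∧
      z = algebraMap (MvPolynomial V k) _ (X a) / algebraMap (MvPolynomial V k) _ (X b)}

lemma eval_aeval' {τ : Type} (g : V → MvPolynomial τ k) (b : τ → k) (F : MvPolynomial V k) :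
    eval b (aeval g F) = eval (fun v => eval b (g v)) F := by
  induction F using MvPolynomial.induction_on with
  | C a => simp
  | add p q hp hq => simp only [map_add, hp, hq]
  | mul_X p n hp => simp only [map_mul, hp, aeval_X, eval_X]

lemma mem_ideal {Z : Set (V → k)} {F : MvPolynomial V k} :
    F ∈ vanishingIdeal k Z ↔ ∀ p ∈ Z, eval p F = 0 := by
  simp only [mem_vanishingIdeal_iff, aeval_eq_eval]

lemma isGeneric (Z : Set (V → k)) [(vanishingIdeal k Z).IsPrime] :
    IsGeneric Z (fun v => algebraMap (MvPolynomial V k) (vanishingIdeal k Z).ResidueField (X v)) := by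
  intro F
  rw [← mem_ideal, ← Ideal.algebraMap_residueField_eq_zero]
  have : aeval (fun v => algebraMap (MvPolynomial V k) (vanishingIdeal k Z).ResidueField (X v)) =
      IsScalarTower.toAlgHom k (MvPolynomial V k) (vanishingIdeal k Z).ResidueField := by
    apply MvPolynomial.algHom_ext
    intro v
    simp
  rw [this]
  rfl

lemma ideal_iff [Infinite k] {τ : Type} (g : V → MvPolynomial τ k) (Z : Set (V → k))
    (h : MvPolynomial τ k) (h0 : h ≠ 0)
    (hin : ∀ b : τ → k, eval b h ≠ 0 → (fun v => eval b (g v)) ∈ Z)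
    (hout : ∀ F : MvPolynomial V k, (∀ b : τ → k, eval (fun v => eval b (g v)) F = 0) →
      ∀ p ∈ Z, eval p F = 0) (F : MvPolynomial V k) :
    F ∈ vanishingIdeal k Z ↔ aeval g F = 0 := by
  rw [mem_ideal]
  constructor
  · intro hF
    have : aeval g F * h = 0 := by
      apply MvPolynomial.funext
      intro b
      rw [map_mul, map_zero]
      by_cases hb : eval b h = 0
      · rw [hb, mul_zero]
      · rw [eval_aeval', hF _ (hin b hb), zero_mul]
    exact (mul_eq_zero.mp this).resolve_right h0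
  · intro hF
    refine hout F fun b => ?_
    rw [← eval_aeval', hF, map_zero]

lemma prime_of_iff {τ : Type} {g : V → MvPolynomial τ k} {Z : Set (V → k)}
    (H : ∀ F, F ∈ vanishingIdeal k Z ↔ aeval g F = 0) : (vanishingIdeal k Z).IsPrime := by
  have : vanishingIdeal k Z = RingHom.ker (aeval g : MvPolynomial V k →ₐ[k] MvPolynomial τ k) :=
    Ideal.ext fun F => (H F).trans RingHom.mem_ker.symm
  rw [this]
  exact RingHom.ker_isPrime _

lemma exists_iota {τ : Type} {g : V → MvPolynomial τ k} {Z : Set (V → k)}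
    [(vanishingIdeal k Z).IsPrime] (H : ∀ F, F ∈ vanishingIdeal k Z ↔ aeval g F = 0) :
    ∃ ι : (vanishingIdeal k Z).ResidueField →ₐ[k] FractionRing (MvPolynomial τ k),
      ∀ v, ι (algebraMap (MvPolynomial V k) _ (X v)) = algebraMap (MvPolynomial τ k) _ (g v) := by
  let f : MvPolynomial V k →ₐ[k] FractionRing (MvPolynomial τ k) :=
    (IsScalarTower.toAlgHom k (MvPolynomial τ k) _).comp (aeval g)
  have hf : ∀ F, f F = algebraMap (MvPolynomial τ k) _ (aeval g F) := fun F => rfl
  refine ⟨Ideal.ResidueField.liftₐ _ f (fun F hF => ?_) (fun F hF => ?_), fun v => ?_⟩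
  · rw [RingHom.mem_ker, hf, (H F).mp hF, map_zero]
  · change IsUnit (f F)
    rw [isUnit_iff_ne_zero, hf]
    intro e
    exact hF ((H F).mpr (IsFractionRing.injective (MvPolynomial τ k) _ (e.trans (map_zero _).symm)))
  · rw [Ideal.ResidueField.liftₐ_algebraMap, hf, aeval_X]

lemma ratio_mem (Z : Set (V → k)) [(vanishingIdeal k Z).IsPrime] {a b : V}
    (h : a.isLeft = b.isLeft) :
    algebraMap (MvPolynomial V k) (vanishingIdeal k Z).ResidueField (X a) /
      algebraMap (MvPolynomial V k) _ (X b) ∈ funField Z :=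
  IntermediateField.subset_adjoin _ _ ⟨a, b, h, rfl⟩

variable [CharP k 2]

lemma smooth_surf : JacobianSmooth 2 (cone ({F1, F2} : Set (MvPolynomial V k))) := by
  rintro p ⟨hx, hy, -⟩
  have m1 : ∀ q ∈ cone ({F1, F2} : Set (MvPolynomial V k)), eval q F1 = 0 :=
    fun q hq => hq.2.2 _ (by simp)
  have m2 : ∀ q ∈ cone ({F1, F2} : Set (MvPolynomial V k)), eval q F2 = 0 :=
    fun q hq => hq.2.2 _ (by simp)
  let g1 : V → k := fun a => eval p (pderiv a F1)
  let g2 : V → k := fun a => eval p (pderiv a F2)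
  have a1 : ∀ i, g1 (.inl i) = p (.inr i) ^ 2 := by
    intro i
    fin_cases i <;> simp [g1, F1, Fin.sum_univ_three, pderiv_X]
  have a2 : ∀ i, g1 (.inr i) = 0 := by
    intro i
    fin_cases i <;> simp [g1, F1, Fin.sum_univ_three, pderiv_X, two_eq]
  have b1 : ∀ i, g2 (.inr i) = p (.inl i) ^ 2 := by
    intro i
    fin_cases i <;> simp [g2, F2, Fin.sum_univ_three, pderiv_X]
  have b2 : ∀ i, g2 (.inl i) = 0 := by
    intro i
    fin_cases i <;> simp [g2, F2, Fin.sum_univ_three, pderiv_X, two_eq]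
  obtain ⟨i, hi⟩ := Function.ne_iff.mp hx
  obtain ⟨j, hj⟩ := Function.ne_iff.mp hy
  have li : LinearIndependent k ![g1, g2] := by
    rw [LinearIndependent.pair_iff]
    intro s t hst
    have e1 := congrFun hst (.inl j)
    have e2 := congrFun hst (.inr i)
    simp only [Pi.add_apply, Pi.smul_apply, smul_eq_mul, a1, a2, b1, b2, mul_zero, add_zero,
      zero_add, Pi.zero_apply] at e1 e2
    exact ⟨(mul_eq_zero.mp e1).resolve_right (pow_ne_zero _ hj),
      (mul_eq_zero.mp e2).resolve_right (pow_ne_zero _ hi)⟩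
  have h2 := finrank_span_eq_card li
  have hle : Submodule.span k (Set.range ![g1, g2]) ≤ Submodule.span k
      (gradients (cone ({F1, F2} : Set (MvPolynomial V k))) p) := by
    apply Submodule.span_mono
    rintro _ ⟨r, rfl⟩
    fin_cases r
    · exact ⟨F1, m1, rfl⟩
    · exact ⟨F2, m2, rfl⟩
  have := Submodule.finrank_mono hle
  rw [h2, Fintype.card_fin] at this
  rw [Set.finrank]
  omega

/-- generic point of the surface -/
noncomputable def gS : V → MvPolynomial (Fin 4) k := P3 ![1, X 0, X 1] (X 2) (X 3)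

lemma eval_gS (b : Fin 4 → k) :
    (fun v => eval b (gS v)) = P3 ![1, b 0, b 1] (b 2) (b 3) := by
  funext v
  rw [gS, map_P3, eval_X, eval_X]
  congr 1
  funext j
  fin_cases j <;> simp

lemma w0_ne [IsAlgClosed k] : (w ![1, X 0, X 1] 0 : MvPolynomial (Fin 4) k) ≠ 0 := by
  classical
  intro h
  obtain ⟨s, hs⟩ := Infinite.exists_notMem_finset (Polynomial.X ^ 4 - Polynomial.X :
    Polynomial k).roots.toFinset
  apply hs
  have := congrArg (eval ![1, s, 0, 0]) h
  simp [w] at this
  rw [Multiset.mem_toFinset, Polynomial.mem_roots]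
  · simp [this]
  · exact FiniteField.X_pow_card_sub_X_ne_zero k (by norm_num)

lemma surf_iff [IsAlgClosed k] (F : MvPolynomial V k) :
    F ∈ vanishingIdeal k (cone ({F1, F2} : Set (MvPolynomial V k))) ↔ aeval (gS (k := k)) F = 0 := by
  refine ideal_iff gS _ (X 2 * X 3 * w ![1, X 0, X 1] 0)
    (mul_ne_zero (mul_ne_zero (X_ne_zero _) (X_ne_zero _)) w0_ne) (fun b hb => ?_)
    (fun F hF p hp => ?_) F
  · rw [eval_gS]
    rw [map_mul, map_mul, eval_X, eval_X, map_w] at hb
    have e : (fun j => eval b ((![1, X 0, X 1] : Fin 3 → MvPolynomial (Fin 4) k) j)) =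
        ![1, b 0, b 1] := by
      funext j
      fin_cases j <;> simp
    rw [e] at hb
    refine ⟨fun h => ?_, fun h => ?_, ?_⟩
    · have := congrFun h 0
      simp [P3] at this
      simp [this] at hb
    · have := congrFun h 0
      simp only [P3, Function.comp_apply, Sum.elim_inr, Pi.zero_apply] at this
      rw [mul_assoc, this, mul_zero] at hb
      exact hb rfl
    · rintro G (rfl | rfl)
      · exact P3_F1 _ _ _
      · exact P3_F2 _ _ _
  · refine vanish_surf F (fun s t m l => ?_) hp.1 (hp.2.2 _ (by simp)) (hp.2.2 _ (by simp))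
    have := hF ![s, t, m, l]
    rwa [eval_gS] at this

theorem surf_main [IsAlgClosed k] :
    ∃ _ : (vanishingIdeal k (cone ({F1, F2} : Set (MvPolynomial V k)))).IsPrime,
      Algebra.trdeg k (funField (cone ({F1, F2} : Set (MvPolynomial V k)))) = 2 ∧
      ∃ φ : RatField k 2 →ₐ[k] funField (cone ({F1, F2} : Set (MvPolynomial V k))),
        (∀ i : Fin 2, (φ (algebraMap (MvPolynomial (Fin 2) k) _ (X i)) :
            (vanishingIdeal k (cone ({F1, F2} : Set (MvPolynomial V k)))).ResidueField) =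
          algebraMap (MvPolynomial V k) _ (X (Sum.inl i.succ)) /
            algebraMap (MvPolynomial V k) _ (X (Sum.inl 0))) ∧
        degree φ = 2 ∧ minDegree k 2 (funField (cone ({F1, F2} : Set (MvPolynomial V k)))) = 2 := by
  have hp := prime_of_iff (surf_iff (k := k))
  refine ⟨hp, ?_⟩
  set Z := cone ({F1, F2} : Set (MvPolynomial V k)) with hZ
  obtain ⟨ι, hι⟩ := exists_iota (surf_iff (k := k))
  let z : V → (vanishingIdeal k Z).ResidueField := fun v => algebraMap (MvPolynomial V k) _ (X v)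
  have hz : ∀ v, gS (k := k) v ≠ 0 → z v ≠ 0 := by
    intro v hv h
    apply hv
    rw [← aeval_X (R := k) gS v, ← surf_iff, ← Ideal.algebraMap_residueField_eq_zero]
    exact h
  have x0 : z (.inl 0) ≠ 0 := hz _ (by simp [gS, P3])
  have y0 : z (.inr 0) ≠ 0 := hz _ (mul_ne_zero (X_ne_zero _) w0_ne)
  let ξ : Fin 3 → funField Z := fun i => ⟨z (.inl i) / z (.inl 0), ratio_mem Z rfl⟩
  let η : Fin 3 → funField Z := fun i => ⟨z (.inr i) / z (.inr 0), ratio_mem Z rfl⟩
  have r1 : z (.inl 0) * z (.inr 0) ^ 2 + z (.inl 1) * z (.inr 1) ^ 2 +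
      z (.inl 2) * z (.inr 2) ^ 2 = 0 := by
    have : algebraMap (MvPolynomial V k) (vanishingIdeal k Z).ResidueField F1 = 0 :=
      Ideal.algebraMap_residueField_eq_zero.mpr (mem_ideal.mpr fun q hq => hq.2.2 _ (by simp))
    simpa [F1, Fin.sum_univ_three] using this
  have r2 : z (.inl 0) ^ 2 * z (.inr 0) + z (.inl 1) ^ 2 * z (.inr 1) +
      z (.inl 2) ^ 2 * z (.inr 2) = 0 := by
    have : algebraMap (MvPolynomial V k) (vanishingIdeal k Z).ResidueField F2 = 0 :=
      Ideal.algebraMap_residueField_eq_zero.mpr (mem_ideal.mpr fun q hq => hq.2.2 _ (by simp))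
    simpa [F2, Fin.sum_univ_three] using this
  have key := surf_field (k := k) (ξ := ξ) (η := η) (Subtype.ext (div_self x0))
    (Subtype.ext (div_self y0)) ?_ ?_ ?_ ?_
  · obtain ⟨h1, φ, h2, h3, h4⟩ := key
    exact ⟨h1, φ, fun i => congrArg Subtype.val (h2 i), h3, h4⟩
  · apply Subtype.ext
    change z (.inl 0) / z (.inl 0) * (z (.inr 0) / z (.inr 0)) ^ 2 +
      z (.inl 1) / z (.inl 0) * (z (.inr 1) / z (.inr 0)) ^ 2 +
      z (.inl 2) / z (.inl 0) * (z (.inr 2) / z (.inr 0)) ^ 2 = 0
    field_simp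
    linear_combination r1
  · apply Subtype.ext
    change z (.inr 0) / z (.inr 0) * (z (.inl 0) / z (.inl 0)) ^ 2 +
      z (.inr 1) / z (.inr 0) * (z (.inl 1) / z (.inl 0)) ^ 2 +
      z (.inr 2) / z (.inr 0) * (z (.inl 2) / z (.inl 0)) ^ 2 = 0
    field_simp
    linear_combination r2
  · apply IntermediateField.lift_injective
    rw [IntermediateField.lift_adjoin, IntermediateField.lift_top]
    apply le_antisymm
    · rw [IntermediateField.adjoin_le_iff]
      rintro _ ⟨u, -, rfl⟩
      exact u.2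
    · conv_lhs => rw [funField]
      rw [IntermediateField.adjoin_le_iff]
      rintro _ ⟨a, b, hab, rfl⟩
      rcases a with i | i <;> rcases b with j | j
      · have : z (.inl i) / z (.inl j) = (z (.inl i) / z (.inl 0)) / (z (.inl j) / z (.inl 0)) :=
          (div_div_div_cancel_right₀ x0 _ _).symm
        change z (.inl i) / z (.inl j) ∈ _
        rw [this]
        exact div_mem (IntermediateField.subset_adjoin _ _ ⟨ξ i, Or.inl ⟨i, rfl⟩, rfl⟩)
          (IntermediateField.subset_adjoin _ _ ⟨ξ j, Or.inl ⟨j, rfl⟩, rfl⟩)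
      · simp at hab
      · simp at hab
      · have : z (.inr i) / z (.inr j) = (z (.inr i) / z (.inr 0)) / (z (.inr j) / z (.inr 0)) :=
          (div_div_div_cancel_right₀ y0 _ _).symm
        change z (.inr i) / z (.inr j) ∈ _
        rw [this]
        exact div_mem (IntermediateField.subset_adjoin _ _ ⟨η i, Or.inr ⟨i, rfl⟩, rfl⟩)
          (IntermediateField.subset_adjoin _ _ ⟨η j, Or.inr ⟨j, rfl⟩, rfl⟩)
  · intro P hP
    let q : Fin 2 → MvPolynomial (Fin 4) k := ![X 0 ^ 2, X 1 ^ 2]
    have e : ∀ i : Fin 2, (ι.comp (funField Z).val) (ξ i.succ) =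
        IsScalarTower.toAlgHom k (MvPolynomial (Fin 4) k) _ (q i) := by
      intro i
      change ι (z (.inl i.succ) / z (.inl 0)) = algebraMap _ _ (q i)
      rw [map_div₀, hι, hι, div_eq_iff (by simp [gS, P3]), ← map_mul]
      congr 1
      fin_cases i <;> simp [gS, P3, q, mul_comm]
    have h1 := congrArg (ι.comp (funField Z).val) hP
    rw [map_zero, ← AlgHom.comp_apply, comp_aeval] at h1
    simp only [e] at h1
    rw [← comp_aeval, AlgHom.comp_apply] at h1
    have h2 : aeval q P = 0 := IsFractionRing.injective (MvPolynomial (Fin 4) k) _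
      (h1.trans (map_zero _).symm)
    apply MvPolynomial.funext
    intro c
    choose a ha using fun i : Fin 2 => IsAlgClosed.exists_pow_nat_eq (c i) (n := 2) two_pos
    have h3 := congrArg (aeval (R := k) ![a 0, a 1, 0, 0]) h2
    rw [map_zero, ← AlgHom.comp_apply, comp_aeval] at h3
    have e4 : (fun i => aeval (R := k) ![a 0, a 1, 0, 0] (q i)) = c := by
      funext i
      fin_cases i <;> simp [q, ha]
    rw [e4] at h3
    rw [map_zero]
    exact h3

end Pool.Agent.H265Z.Gon
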