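import Pool.Agent.H265Z.Gon.Defs

namespace Pool.Agent.H265Z.Gon

open MvPolynomial

section UFD
variable {A : Type} [CommRing A] [IsDomain A] [UniqueFactorizationMonoid A]

/-- no prime divides all entries -/
def Prim (z : Fin 3 → A) : Prop := ∀ π : A, Prime π → ∃ j, ¬ π ∣ z j

lemma dvd_of_prim {z : Fin 3 → A} (hz : Prim z) (d : A) (hd : d ≠ 0) :
    ∀ v : A, (∀ j, d ∣ v * z j) → d ∣ v := by
  induction d using UniqueFactorizationMonoid.induction_on_prime with
  | h₁ => exact absurd rfl hd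
  | h₂ x hx => exact fun v _ => hx.dvd
  | h₃ a p ha hp ih =>
    intro v hv
    obtain ⟨j, hj⟩ := hz p hp
    have h1 : p ∣ v := ((hp.dvd_or_dvd (dvd_of_mul_right_dvd (hv j))).resolve_right hj)
    obtain ⟨v', rfl⟩ := h1
    refine mul_dvd_mul_left p (ih ha v' fun i => ?_)
    have := hv i
    rw [mul_assoc] at this
    exact (mul_dvd_mul_iff_left hp.ne_zero).mp this

lemma prim_sq {z : Fin 3 → A} (hz : Prim z) : Prim fun j => z j ^ 2 := by
  intro π hπ
  obtain ⟨j, hj⟩ := hz π hπ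
  exact ⟨j, fun h => hj (hπ.dvd_of_dvd_pow h)⟩

lemma exists_prim {T : Type} [Field T] [Algebra A T] [IsFractionRing A T] (ξ : Fin 3 → T)
    (h0 : ξ 0 = 1) : ∃ x : Fin 3 → A, x 0 ≠ 0 ∧ Prim x ∧
      ∀ i, algebraMap A T (x i) = algebraMap A T (x 0) * ξ i := by
  classical
  obtain ⟨b, hb⟩ := IsLocalization.exist_integer_multiples_of_finite (nonZeroDivisors A) ξ
  let S : Set A := {a | a ≠ 0 ∧ ∀ i, ∃ c : A, algebraMap A T c = algebraMap A T a * ξ i}
  have hS : S.Nonempty := ⟨b, nonZeroDivisors.coe_ne_zero b, fun i => by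
    obtain ⟨c, hc⟩ := hb i
    exact ⟨c, by rw [hc, Algebra.smul_def]⟩⟩
  obtain ⟨a, ⟨ha0, ha⟩, hmin⟩ := (wellFounded_dvdNotUnit (α := A)).has_min S hS
  choose x hx using ha
  have hx0 : x 0 = a := IsFractionRing.injective A T (by rw [hx 0, h0, mul_one])
  refine ⟨x, hx0 ▸ ha0, fun π hπ => ?_, fun i => by rw [hx i, hx0]⟩
  by_contra hcon
  push Not at hcon
  choose c hc using hcon
  have hπ0 : algebraMap A T π ≠ 0 := by
    simpa using hπ.ne_zero
  have hc0 : c 0 ≠ 0 := by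
    intro h
    apply ha0
    rw [← hx0, hc 0, h, mul_zero]
  refine hmin (c 0) ⟨hc0, fun i => ⟨c i, ?_⟩⟩ ⟨hc0, π, hπ.not_isUnit, ?_⟩
  · apply mul_left_cancel₀ hπ0
    rw [← map_mul, ← hc i, hx i, ← mul_assoc, ← map_mul, ← hc 0, hx0]
  · rw [← hx0, hc 0, mul_comm]

end UFD

variable {k : Type} [Field k]

abbrev A2 (k : Type) [Field k] : Type := MvPolynomial (Fin 2) k

/-- the `2 x 2` minors of `(x, D x)` -/
noncomputable def W (D : Derivation k (A2 k) (A2 k)) (x : Fin 3 → A2 k) : Fin 3 → A2 k :=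
  ![x 1 * D (x 2) - x 2 * D (x 1), x 2 * D (x 0) - x 0 * D (x 2), x 0 * D (x 1) - x 1 * D (x 0)]

lemma totalDegree_X_mul_pderiv (r : Fin 2) (p : A2 k) :
    (X r * pderiv r p).totalDegree ≤ p.totalDegree := by
  classical
  conv_lhs => rw [p.as_sum]
  rw [map_sum, Finset.mul_sum]
  refine totalDegree_finsetSum_le fun m hm => ?_
  rw [X_mul_pderiv_monomial, smul_monomial]
  exact (totalDegree_monomial_le _ _).trans (le_totalDegree hm)

lemma totalDegree_W (r : Fin 2) (x : Fin 3 → A2 k) (m : ℕ) (hm : ∀ i, (x i).totalDegree ≤ m)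
    (j : Fin 3) : (X r * W (pderiv r) x j).totalDegree ≤ m + m := by
  have key : ∀ a b : Fin 3,
      (X r * (x a * pderiv r (x b) - x b * pderiv r (x a))).totalDegree ≤ m + m := by
    intro a b
    have e : X r * (x a * pderiv r (x b) - x b * pderiv r (x a)) =
        x a * (X r * pderiv r (x b)) - x b * (X r * pderiv r (x a)) := by ring
    rw [e]
    refine (totalDegree_sub _ _).trans (max_le ?_ ?_)
    · exact (totalDegree_mul _ _).trans
        (add_le_add (hm a) ((totalDegree_X_mul_pderiv r _).trans (hm b)))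
    · exact (totalDegree_mul _ _).trans
        (add_le_add (hm b) ((totalDegree_X_mul_pderiv r _).trans (hm a)))
  fin_cases j
  · exact key 1 2
  · exact key 2 0
  · exact key 0 1

variable [CharP k 2]

lemma exists_alpha (D : Derivation k (A2 k) (A2 k)) {x y : Fin 3 → A2 k} (hx : x 0 ≠ 0)
    (hy : y 0 ≠ 0) (py : Prim y)
    (h : x 0 * y 0 ^ 2 + x 1 * y 1 ^ 2 + x 2 * y 2 ^ 2 = 0) :
    ∃ α : A2 k, ∀ j, W D x j = α * y j ^ 2 := by
  have two : (2 : A2 k) = 0 := by
    have := CharP.cast_eq_zero (A2 k) 2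
    exact_mod_cast this
  have hD : D (x 0) * y 0 ^ 2 + D (x 1) * y 1 ^ 2 + D (x 2) * y 2 ^ 2 = 0 := by
    have := congrArg D h
    simp only [map_add, Derivation.leibniz, Derivation.leibniz_pow, smul_eq_mul, map_zero,
      nsmul_eq_mul, Nat.cast_ofNat, two] at this
    linear_combination this
  have e : ∀ j, W D x 0 * y j ^ 2 = y 0 ^ 2 * W D x j := by
    intro j
    fin_cases j
    · simp [mul_comm]
    · simp only [W, Fin.mk_one, Matrix.cons_val_zero, Matrix.cons_val_one]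
      linear_combination D (x 2) * h - x 2 * hD
    · simp only [W, Fin.reduceFinMk, Matrix.cons_val_zero, Matrix.cons_val]
      linear_combination x 1 * hD - D (x 1) * h
  have hy2 : y 0 ^ 2 ≠ 0 := pow_ne_zero _ hy
  obtain ⟨α, hα⟩ := dvd_of_prim (prim_sq py) (y 0 ^ 2) hy2 (W D x 0) fun j => ⟨_, e j⟩
  refine ⟨α, fun j => mul_left_cancel₀ hy2 ?_⟩
  rw [← e j, hα]
  ring

lemma exists_top (y : Fin 3 → A2 k) (hy : y 0 ≠ 0) :
    ∃ j, y j ≠ 0 ∧ ∀ i, (y i).totalDegree ≤ (y j).totalDegree := by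
  obtain ⟨j, -, hj⟩ := Finset.exists_max_image Finset.univ (fun i => (y i).totalDegree)
    Finset.univ_nonempty
  by_cases h : y j = 0
  · refine ⟨0, hy, fun i => ?_⟩
    have := hj i (Finset.mem_univ _)
    rw [h, totalDegree_zero] at this
    omega
  · exact ⟨j, h, fun i => hj i (Finset.mem_univ _)⟩

lemma deg_lt {x y : Fin 3 → A2 k} {i j : Fin 3} (hj : y j ≠ 0)
    (hi : ∀ a, (x a).totalDegree ≤ (x i).totalDegree) (r : Fin 2) {α : A2 k} (hα : α ≠ 0)
    (h : W (pderiv r) x j = α * y j ^ 2) : (y j).totalDegree < (x i).totalDegree := by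
  have h1 := totalDegree_W r x _ hi j
  rw [h, sq, totalDegree_mul_of_isDomain (X_ne_zero r) (mul_ne_zero hα (mul_ne_zero hj hj)),
    totalDegree_mul_of_isDomain hα (mul_ne_zero hj hj), totalDegree_mul_of_isDomain hj hj,
    totalDegree_X] at h1
  omega

/-- constants of `D` in the fraction field -/
noncomputable def consts (D : Derivation k (A2 k) (A2 k)) : IntermediateField k (RatField k 2) where
  carrier := {z | ∃ p q : A2 k, q ≠ 0 ∧ q * D p = p * D q ∧
    z = algebraMap _ _ p / algebraMap _ _ q}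
  mul_mem' := by
    rintro _ _ ⟨p, q, hq, h, rfl⟩ ⟨p', q', hq', h', rfl⟩
    refine ⟨p * p', q * q', mul_ne_zero hq hq', ?_, by rw [map_mul, map_mul, div_mul_div_comm]⟩
    simp only [Derivation.leibniz, smul_eq_mul]
    linear_combination p * q * h' + p' * q' * h
  add_mem' := by
    rintro _ _ ⟨p, q, hq, h, rfl⟩ ⟨p', q', hq', h', rfl⟩
    refine ⟨p * q' + q * p', q * q', mul_ne_zero hq hq', ?_, ?_⟩
    · simp only [map_add, Derivation.leibniz, smul_eq_mul]
      linear_combination q ^ 2 * h' + q' ^ 2 * h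
    · rw [div_add_div _ _ (by simpa using hq) (by simpa using hq')]
      simp only [map_add, map_mul]
  algebraMap_mem' c := ⟨C c, 1, one_ne_zero, by
      have : D (C c) = 0 := D.map_algebraMap c
      simp [this], by
      rw [map_one, div_one]; rfl⟩
  inv_mem' := by
    rintro _ ⟨p, q, hq, h, rfl⟩
    by_cases hp : p = 0
    · exact ⟨0, 1, one_ne_zero, by simp, by simp [hp]⟩
    · exact ⟨q, p, hp, h.symm, by rw [inv_div]⟩

lemma X_mem_consts {D : Derivation k (A2 k) (A2 k)} {r : Fin 2}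
    (h : algebraMap (A2 k) (RatField k 2) (X r) ∈ consts D) : D (X r) = 0 := by
  obtain ⟨p, q, hq, h, e⟩ := h
  rw [eq_div_iff (by simpa using hq), ← map_mul] at e
  have e' : X r * q = p := IsFractionRing.injective (A2 k) (RatField k 2) e
  subst e'
  simp only [Derivation.leibniz, smul_eq_mul] at h
  have : q * q * D (X r) = 0 := by linear_combination h
  exact (mul_eq_zero.mp this).resolve_left (mul_ne_zero hq hq)

lemma mem_consts {D : Derivation k (A2 k) (A2 k)} {x : Fin 3 → A2 k} {ξ : Fin 3 → RatField k 2}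
    (hx : x 0 ≠ 0) (h : ∀ i, algebraMap _ (RatField k 2) (x i) = algebraMap _ _ (x 0) * ξ i)
    (hW : ∀ j, W D x j = 0) (i : Fin 3) : ξ i ∈ consts D := by
  refine ⟨x i, x 0, hx, ?_, ?_⟩
  · fin_cases i
    · rfl
    · have := hW 2
      simp only [W, Matrix.cons_val] at this
      simp only [Fin.mk_one]
      linear_combination this
    · have := hW 1
      simp only [W, Matrix.cons_val_one, Matrix.cons_val_zero] at this
      simp only [Fin.reduceFinMk]
      linear_combination -this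
  · rw [h i, mul_div_cancel_left₀ _ (by simpa using hx)]

lemma W_comb (a b : A2 k) (x : Fin 3 → A2 k) (j : Fin 3) :
    W (a • pderiv 0 + b • pderiv 1) x j = a * W (pderiv 0) x j + b * W (pderiv 1) x j := by
  fin_cases j <;> simp [W] <;> ring

lemma half {x y : Fin 3 → A2 k} {ξ η : Fin 3 → RatField k 2}
    (hx : x 0 ≠ 0) (hy : y 0 ≠ 0)
    (hξ : ∀ i, algebraMap _ (RatField k 2) (x i) = algebraMap _ _ (x 0) * ξ i)
    (hη : ∀ i, algebraMap _ (RatField k 2) (y i) = algebraMap _ _ (y 0) * η i)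
    (α : Fin 2 → A2 k) (hα : ∀ r j, W (pderiv r) x j = α r * y j ^ 2)
    (hβ : ∀ r j, W (pderiv r) y j = 0)
    (gen : IntermediateField.adjoin k (Set.range ξ ∪ Set.range η) = ⊤) : False := by
  have main : ∀ a b : A2 k, a * α 0 + b * α 1 = 0 → a = 0 ∧ b = 0 := by
    intro a b hab
    have hle : (⊤ : IntermediateField k (RatField k 2)) ≤
        consts (a • pderiv 0 + b • pderiv 1) := by
      rw [← gen, IntermediateField.adjoin_le_iff]
      rintro _ (⟨i, rfl⟩ | ⟨i, rfl⟩)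
      · refine mem_consts hx hξ (fun j => ?_) i
        rw [W_comb, hα, hα]
        linear_combination y j ^ 2 * hab
      · refine mem_consts hy hη (fun j => ?_) i
        rw [W_comb, hβ, hβ]
        ring
    have h0 := X_mem_consts (r := 0) (hle trivial)
    have h1 := X_mem_consts (r := 1) (hle trivial)
    simp at h0 h1
    exact ⟨h0, h1⟩
  obtain ⟨h1, h0⟩ := main (α 1) (-α 0) (by ring)
  have h0' : α 0 = 0 := neg_eq_zero.mp h0
  exact one_ne_zero (main 1 0 (by rw [h0', h1]; ring)).1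

lemma nonrat_aux {ξ η : Fin 3 → RatField k 2} (h0 : ξ 0 = 1) (h0' : η 0 = 1)
    (h1 : ξ 0 * η 0 ^ 2 + ξ 1 * η 1 ^ 2 + ξ 2 * η 2 ^ 2 = 0)
    (h2 : η 0 * ξ 0 ^ 2 + η 1 * ξ 1 ^ 2 + η 2 * ξ 2 ^ 2 = 0)
    (gen : IntermediateField.adjoin k (Set.range ξ ∪ Set.range η) = ⊤) : False := by
  obtain ⟨x, hx, px, hξ⟩ := exists_prim (A := A2 k) ξ h0
  obtain ⟨y, hy, py, hη⟩ := exists_prim (A := A2 k) η h0'
  have e1 : x 0 * y 0 ^ 2 + x 1 * y 1 ^ 2 + x 2 * y 2 ^ 2 = 0 := by
    apply IsFractionRing.injective (A2 k) (RatField k 2)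
    simp only [map_add, map_mul, map_pow, map_zero]
    rw [hξ 1, hξ 2, hη 1, hη 2]
    rw [h0, h0'] at h1
    linear_combination algebraMap (A2 k) (RatField k 2) (x 0) *
      algebraMap (A2 k) (RatField k 2) (y 0) ^ 2 * h1
  have e2 : y 0 * x 0 ^ 2 + y 1 * x 1 ^ 2 + y 2 * x 2 ^ 2 = 0 := by
    apply IsFractionRing.injective (A2 k) (RatField k 2)
    simp only [map_add, map_mul, map_pow, map_zero]
    rw [hξ 1, hξ 2, hη 1, hη 2]
    rw [h0, h0'] at h2
    linear_combination algebraMap (A2 k) (RatField k 2) (y 0) *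
      algebraMap (A2 k) (RatField k 2) (x 0) ^ 2 * h2
  choose α hα using fun r : Fin 2 => exists_alpha (pderiv r) hx hy py e1
  choose β hβ using fun r : Fin 2 => exists_alpha (pderiv r) hy hx px e2
  by_cases hb : ∀ r, β r = 0
  · exact half hx hy hξ hη α hα (fun r j => by rw [hβ, hb, zero_mul]) gen
  by_cases ha : ∀ r, α r = 0
  · exact half hy hx hη hξ β hβ (fun r j => by rw [hα, ha, zero_mul]) (by rw [Set.union_comm, gen])
  push Not at ha hb
  obtain ⟨r, hr⟩ := ha
  obtain ⟨r', hr'⟩ := hb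
  obtain ⟨i, hi, hi'⟩ := exists_top x hx
  obtain ⟨j, hj, hj'⟩ := exists_top y hy
  have := deg_lt hj hi' r hr (hα r j)
  have := deg_lt hi hj' r' hr' (hβ r' i)
  omega

theorem nonrat {K : Type} [Field K] [Algebra k K] {ξ η : Fin 3 → K} (h0 : ξ 0 = 1) (h0' : η 0 = 1)
    (h1 : ξ 0 * η 0 ^ 2 + ξ 1 * η 1 ^ 2 + ξ 2 * η 2 ^ 2 = 0)
    (h2 : η 0 * ξ 0 ^ 2 + η 1 * ξ 1 ^ 2 + η 2 * ξ 2 ^ 2 = 0)
    (gen : IntermediateField.adjoin k (Set.range ξ ∪ Set.range η) = ⊤)
    (φ : RatField k 2 →ₐ[k] K) : φ.fieldRange ≠ ⊤ := by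
  intro hφ
  have hs : Function.Surjective φ := AlgHom.fieldRange_eq_top.mp hφ
  let e : RatField k 2 ≃ₐ[k] K := AlgEquiv.ofBijective φ ⟨φ.toRingHom.injective, hs⟩
  refine nonrat_aux (ξ := e.symm ∘ ξ) (η := e.symm ∘ η) (by simp [h0]) (by simp [h0']) ?_ ?_ ?_
  · have := congrArg e.symm h1
    simpa using this
  · have := congrArg e.symm h2
    simpa using this
  · have := congrArg (IntermediateField.map (e.symm : K →ₐ[k] RatField k 2)) gen
    rw [IntermediateField.adjoin_map, Set.image_union, ← Set.range_comp, ← Set.range_comp,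
      ← AlgHom.fieldRange_eq_map] at this
    exact this.trans (AlgHom.fieldRange_eq_top.mpr e.symm.surjective)

end Pool.Agent.H265Z.Gon
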