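import Pool.Agent.H265Z.Gon.Fields

namespace Pool.Agent.H265Z.Gon

open MvPolynomial

section ring
variable {A B : Type} [CommRing A] [CommRing B]

/-- the vector product of `a` and its fourth power -/
def w (a : Fin 3 → A) : Fin 3 → A :=
  ![a 1 * a 2 ^ 4 - a 2 * a 1 ^ 4, a 2 * a 0 ^ 4 - a 0 * a 2 ^ 4, a 0 * a 1 ^ 4 - a 1 * a 0 ^ 4]

/-- parametrisation of the surface -/
def P3 (a : Fin 3 → A) (m l : A) : V → A := Sum.elim (fun i => m * a i ^ 2) (fun i => l * w a i)

lemma map_w (f : A →+* B) (a : Fin 3 → A) (i : Fin 3) : f (w a i) = w (fun j => f (a j)) i := by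
  fin_cases i <;> simp [w]

lemma map_P3 (f : A →+* B) (a : Fin 3 → A) (m l : A) (v : V) :
    f (P3 a m l v) = P3 (fun j => f (a j)) (f m) (f l) v := by
  rcases v with i | i
  · simp [P3]
  · simp [P3, map_w]

lemma P3_smul (c : A) (a : Fin 3 → A) (m l : A) :
    P3 (fun j => c * a j) m l = P3 a (m * c ^ 2) (l * c ^ 5) := by
  funext v
  rcases v with i | i
  · simp only [P3, Sum.elim_inl]
    ring
  · simp only [P3, Sum.elim_inr]
    fin_cases i <;> simp [w] <;> ring

end ring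

variable {k : Type} [Field k]

noncomputable def F1 : MvPolynomial V k := ∑ i : Fin 3, X (Sum.inl i) * X (Sum.inr i) ^ 2
noncomputable def F2 : MvPolynomial V k := ∑ i : Fin 3, X (Sum.inl i) ^ 2 * X (Sum.inr i)
noncomputable def lin (c : Fin 3 → k) : MvPolynomial V k := ∑ i : Fin 3, C (c i) * X (Sum.inl i)

lemma eval_F1 (p : V → k) : eval p F1 = p (.inl 0) * p (.inr 0) ^ 2 + p (.inl 1) * p (.inr 1) ^ 2 +
    p (.inl 2) * p (.inr 2) ^ 2 := by simp [F1, Fin.sum_univ_three]

lemma eval_F2 (p : V → k) : eval p F2 = p (.inl 0) ^ 2 * p (.inr 0) + p (.inl 1) ^ 2 * p (.inr 1) +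
    p (.inl 2) ^ 2 * p (.inr 2) := by simp [F2, Fin.sum_univ_three]

lemma eval_lin (c : Fin 3 → k) (p : V → k) : eval p (lin c) = c 0 * p (.inl 0) + c 1 * p (.inl 1) +
    c 2 * p (.inl 2) := by simp [lin, Fin.sum_univ_three]

lemma lim [Infinite k] (F : MvPolynomial V k) (γ : V → Polynomial k)
    (h : ∀ e : k, e ≠ 0 → eval (fun v => (γ v).eval e) F = 0) :
    eval (fun v => (γ v).eval 0) F = 0 := by
  have key : ∀ e : k, (aeval γ F).eval e = eval (fun v => (γ v).eval e) F := by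
    intro e
    clear h
    induction F using MvPolynomial.induction_on with
    | C a => simp
    | add p q hp hq => simp [hp, hq]
    | mul_X p n hp => simp [hp]
  have : aeval γ F = 0 := by
    apply Polynomial.eq_zero_of_infinite_isRoot
    refine Set.Infinite.mono (fun e he => ?_) (Set.infinite_of_finite_compl (s := {e : k | e ≠ 0}) ?_)
    · exact (key e).trans (h e he)
    · simp
  rw [← key, this, Polynomial.eval_zero]

lemma exists_cross {a y : Fin 3 → k} (ha : a ≠ 0) (h : a 0 * y 0 + a 1 * y 1 + a 2 * y 2 = 0) :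
    ∃ v : Fin 3 → k, y 0 = v 1 * a 2 - v 2 * a 1 ∧ y 1 = v 2 * a 0 - v 0 * a 2 ∧
      y 2 = v 0 * a 1 - v 1 * a 0 := by
  obtain ⟨j, hj⟩ := Function.ne_iff.mp ha
  fin_cases j
  · have hj : a 0 ≠ 0 := hj
    refine ⟨![0, -y 2 / a 0, y 1 / a 0], ?_, ?_, ?_⟩ <;> simp <;> field_simp
    linear_combination h
  · have hj : a 1 ≠ 0 := hj
    refine ⟨![y 2 / a 1, 0, -y 0 / a 1], ?_, ?_, ?_⟩ <;> simp <;> field_simp
    linear_combination h
  · have hj : a 2 ≠ 0 := hj
    refine ⟨![-y 1 / a 2, y 0 / a 2, 0], ?_, ?_, ?_⟩ <;> simp <;> field_simp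
    linear_combination h

lemma exists_smul {u y : Fin 3 → k} (hu : u ≠ 0) (h0 : u 1 * y 2 = u 2 * y 1)
    (h1 : u 2 * y 0 = u 0 * y 2) (h2 : u 0 * y 1 = u 1 * y 0) : ∃ l : k, ∀ i, y i = l * u i := by
  obtain ⟨j, hj⟩ := Function.ne_iff.mp hu
  fin_cases j
  · have hj : u 0 ≠ 0 := hj
    refine ⟨y 0 / u 0, fun i => ?_⟩
    fin_cases i <;> simp <;> field_simp
    · linear_combination h2
    · linear_combination -h1
  · have hj : u 1 ≠ 0 := hj
    refine ⟨y 1 / u 1, fun i => ?_⟩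
    fin_cases i <;> simp <;> field_simp
    · linear_combination -h2
    · linear_combination h0
  · have hj : u 2 ≠ 0 := hj
    refine ⟨y 2 / u 2, fun i => ?_⟩
    fin_cases i <;> simp <;> field_simp
    · linear_combination h1
    · linear_combination -h0

variable [CharP k 2]

lemma two_eq : (2 : k) = 0 := by
  have := CharP.cast_eq_zero k 2
  exact_mod_cast this

lemma P3_F1 (a : Fin 3 → k) (m l : k) : eval (P3 a m l) F1 = 0 := by
  rw [eval_F1]
  have e : a 0 * w a 0 + a 1 * w a 1 + a 2 * w a 2 = 0 := by simp [w]; ring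
  simp only [P3, Sum.elim_inl, Sum.elim_inr]
  linear_combination m * l ^ 2 * (a 0 * w a 0 + a 1 * w a 1 + a 2 * w a 2) * e -
    m * l ^ 2 * (a 0 * w a 0 * a 1 * w a 1 + a 0 * w a 0 * a 2 * w a 2 + a 1 * w a 1 * a 2 * w a 2) *
      two_eq (k := k)

lemma P3_F2 (a : Fin 3 → k) (m l : k) : eval (P3 a m l) F2 = 0 := by
  rw [eval_F2]
  simp [P3, w]
  ring

/-- structure of the points of the surface -/
lemma point_sqrt [IsAlgClosed k] {p : V → k} (hx : p ∘ Sum.inl ≠ 0) (h1 : eval p F1 = 0)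
    (h2 : eval p F2 = 0) : ∃ a : Fin 3 → k, a ≠ 0 ∧ (∀ i, p (.inl i) = a i ^ 2) ∧
      a 0 * p (.inr 0) + a 1 * p (.inr 1) + a 2 * p (.inr 2) = 0 ∧
      (w a ≠ 0 → ∃ l, p = P3 a 1 l) := by
  choose a ha using fun i : Fin 3 => IsAlgClosed.exists_pow_nat_eq (p (.inl i)) (n := 2) two_pos
  rw [eval_F1, ← ha, ← ha, ← ha] at h1
  rw [eval_F2, ← ha, ← ha, ← ha] at h2
  have e1 : a 0 * p (.inr 0) + a 1 * p (.inr 1) + a 2 * p (.inr 2) = 0 := by
    apply pow_eq_zero_iff (n := 2) two_ne_zero |>.mp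
    linear_combination h1 + (a 0 * p (.inr 0) * a 1 * p (.inr 1) + a 0 * p (.inr 0) * a 2 * p (.inr 2)
      + a 1 * p (.inr 1) * a 2 * p (.inr 2)) * two_eq (k := k)
  refine ⟨a, fun h => hx (funext fun i => ?_), fun i => (ha i).symm, e1, fun hw => ?_⟩
  · simp [← ha, h]
  · obtain ⟨l, hl⟩ := exists_smul (y := fun i => p (.inr i)) hw
      (by simp [w]; linear_combination a 0 ^ 4 * e1 - a 0 * h2)
      (by simp [w]; linear_combination a 1 ^ 4 * e1 - a 1 * h2)
      (by simp [w]; linear_combination a 2 ^ 4 * e1 - a 2 * h2)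
    refine ⟨l, funext fun v => ?_⟩
    rcases v with i | i
    · simp [P3, ha]
    · simp [P3, hl]

lemma w_zero {a : Fin 3 → k} (ha : a ≠ 0) (hw : w a = 0) :
    ∃ μ : k, μ ≠ 0 ∧ ∀ i, a i ^ 4 = μ * a i := by
  have h0 := congrFun hw 0
  have h1 := congrFun hw 1
  have h2 := congrFun hw 2
  simp [w] at h0 h1 h2
  obtain ⟨μ, hμ⟩ := exists_smul (y := fun i => a i ^ 4) ha (by linear_combination h0)
    (by linear_combination h1) (by linear_combination h2)
  refine ⟨μ, fun h => ha (funext fun i => ?_), hμ⟩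
  have := hμ i
  rw [h, zero_mul] at this
  exact pow_eq_zero_iff (by norm_num) |>.mp this

/-- a polynomial vanishing at the parametrised points with `a_0 = 1` vanishes on the surface -/
lemma vanish_surf [IsAlgClosed k] (F : MvPolynomial V k)
    (h : ∀ s t m l : k, eval (P3 ![1, s, t] m l) F = 0) {p : V → k} (hx : p ∘ Sum.inl ≠ 0)
    (h1 : eval p F1 = 0) (h2 : eval p F2 = 0) : eval p F = 0 := by
  have hA : ∀ (a : Fin 3 → k) (m l : k), a 0 ≠ 0 → eval (P3 a m l) F = 0 := by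
    intro a m l ha
    have : a = fun j => a 0 * (![1, a 1 / a 0, a 2 / a 0] : Fin 3 → k) j := by
      funext j
      fin_cases j <;> simp <;> field_simp
    rw [this, P3_smul]
    exact h _ _ _ _
  have hB : ∀ (a : Fin 3 → k) (m l : k), eval (P3 a m l) F = 0 := by
    intro a m l
    by_cases ha : a 0 = 0
    swap
    · exact hA a m l ha
    have hγ : ∀ e : k, (fun v => (P3 ![Polynomial.X, Polynomial.C (a 1), Polynomial.C (a 2)]
        (Polynomial.C m) (Polynomial.C l) v).eval e) = P3 ![e, a 1, a 2] m l := by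
      intro e
      funext v
      have := map_P3 (Polynomial.evalRingHom e)
        ![Polynomial.X, Polynomial.C (a 1), Polynomial.C (a 2)] (Polynomial.C m) (Polynomial.C l) v
      rw [Polynomial.coe_evalRingHom] at this
      rw [this, Polynomial.eval_C, Polynomial.eval_C]
      congr 1
      funext j
      fin_cases j <;> simp
    have := lim F _ (fun e he => by rw [hγ e]; exact hA _ _ _ (by simpa using he))
    rw [hγ 0] at this
    have e : a = ![0, a 1, a 2] := by
      funext j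
      fin_cases j <;> simp [ha]
    rw [e]
    exact this
  obtain ⟨a, ha, hxa, e1, hw⟩ := point_sqrt hx h1 h2
  by_cases hw0 : w a = 0
  swap
  · obtain ⟨l, rfl⟩ := hw hw0
    exact hB _ _ _
  obtain ⟨μ, hμ0, hμ⟩ := w_zero ha hw0
  obtain ⟨v, hv0, hv1, hv2⟩ := exists_cross (y := fun i => μ⁻¹ * p (.inr i)) ha
    (by linear_combination μ⁻¹ * e1)
  have hy0 : p (.inr 0) = μ * (v 1 * a 2 - v 2 * a 1) := by rw [← hv0]; field_simp
  have hy1 : p (.inr 1) = μ * (v 2 * a 0 - v 0 * a 2) := by rw [← hv1]; field_simp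
  have hy2 : p (.inr 2) = μ * (v 0 * a 1 - v 1 * a 0) := by rw [← hv2]; field_simp
  let u : Fin 3 → k := ![a 1 * v 2 ^ 4 - a 2 * v 1 ^ 4, a 2 * v 0 ^ 4 - a 0 * v 2 ^ 4,
    a 0 * v 1 ^ 4 - a 1 * v 0 ^ 4]
  let γ : V → Polynomial k := Sum.elim
    (fun i => (Polynomial.C (a i) + Polynomial.X * Polynomial.C (v i)) ^ 2)
    (fun i => Polynomial.C (p (.inr i)) + Polynomial.X ^ 3 * Polynomial.C (u i) +
      Polynomial.X ^ 4 * Polynomial.C (w v i))
  have hfr : ∀ (e : k) (i : Fin 3), (a i + e * v i) ^ 4 = μ * a i + e ^ 4 * v i ^ 4 := by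
    intro e i
    rw [← hμ i]
    linear_combination (2 * a i ^ 3 * e * v i + 3 * a i ^ 2 * e ^ 2 * v i ^ 2 +
      2 * a i * e ^ 3 * v i ^ 3) * two_eq (k := k)
  have hγ : ∀ e : k, e ≠ 0 → (fun z => (γ z).eval e) = P3 (fun i => a i + e * v i) 1 e⁻¹ := by
    intro e he
    funext z
    rcases z with i | i
    · simp only [γ, P3, Sum.elim_inl, Polynomial.eval_add, Polynomial.eval_mul, Polynomial.eval_C,
        Polynomial.eval_pow, Polynomial.eval_X, one_mul]
    · simp only [γ, P3, Sum.elim_inr, Polynomial.eval_add, Polynomial.eval_mul, Polynomial.eval_C,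
        Polynomial.eval_pow, Polynomial.eval_X]
      rw [eq_inv_mul_iff_mul_eq₀ he]
      fin_cases i
      · simp only [w, u, hfr, Fin.zero_eta, Matrix.cons_val_zero, hy0]
        ring
      · simp only [w, u, hfr, Fin.mk_one, Matrix.cons_val_one, Matrix.cons_val_zero, hy1]
        ring
      · simp only [w, u, hfr, Fin.reduceFinMk, Matrix.cons_val, hy2]
        ring
  have := lim F γ (fun e he => by rw [hγ e he]; exact hB _ _ _)
  convert this using 3
  funext z
  rcases z with i | i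
  · simp [γ, hxa]
  · simp [γ]

end Pool.Agent.H265Z.Gon
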